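import Pool.Agent.H633R2.Fpt
import Pool.Agent.H671R2.PolyAuto

/-!
# Graphs given by a list of labels; cliques given by sequences
-/

namespace Pool.Agent.Q322

open Pool.Agent.NPC Pool.Agent.H633R2

section

variable {Λ : Type}

/-- The 0/1 matrix of a test `ad` on a list of labels. -/
def mat (vs : List Λ) (ad : Λ → Λ → Bool) : List (List Bool) :=
  vs.map fun u => vs.map fun w => ad u w

theorem length_mat (vs : List Λ) (ad : Λ → Λ → Bool) : (mat vs ad).length = vs.length := by
  simp [mat]

theorem entry_mat (vs : List Λ) (ad : Λ → Λ → Bool) {i j : ℕ} (hi : i < vs.length)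
    (hj : j < vs.length) : entry (mat vs ad) i j = ad vs[i] vs[j] := by
  simp [entry, mat, List.getD_eq_getElem?_getD, hi, hj]

/-- The label of a vertex. -/
def lab (vs : List Λ) (ad : Λ → Λ → Bool) (i : Fin (mat vs ad).length) : Λ :=
  vs[i.1]'(i.2.trans_eq (length_mat vs ad))

theorem lab_mem (vs : List Λ) (ad : Λ → Λ → Bool) (i : Fin (mat vs ad).length) :
    lab vs ad i ∈ vs := List.getElem_mem _

theorem lab_injective {vs : List Λ} (h : vs.Nodup) (ad : Λ → Λ → Bool) :
    Function.Injective (lab vs ad) := by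
  intro i j hij
  exact Fin.ext ((List.Nodup.getElem_inj_iff h).1 hij)

theorem exists_lab {vs : List Λ} (ad : Λ → Λ → Bool) {x : Λ} (hx : x ∈ vs) :
    ∃ i, lab vs ad i = x := by
  obtain ⟨i, hi, h⟩ := List.getElem_of_mem hx
  exact ⟨⟨i, by rw [length_mat]; exact hi⟩, h⟩

theorem adj_mat {vs : List Λ} {ad : Λ → Λ → Bool} (i j : Fin (mat vs ad).length) :
    (graphOf (mat vs ad)).Adj i j ↔ i ≠ j ∧ (ad (lab vs ad i) (lab vs ad j) = true ∨
      ad (lab vs ad j) (lab vs ad i) = true) := by
  have hi : i.1 < vs.length := i.2.trans_eq (length_mat vs ad)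
  have hj : j.1 < vs.length := j.2.trans_eq (length_mat vs ad)
  change i ≠ j ∧ (entry (mat vs ad) i j = true ∨ entry (mat vs ad) j i = true) ↔ _
  rw [entry_mat vs ad hi hj, entry_mat vs ad hj hi]
  rfl

theorem mat_poly {α : Type} [TEnc α] [TEnc Λ] {vs : α → List Λ} {ad : α → Λ → Λ → Bool}
    (hv : Poly vs) (ha : Poly (fun x : (α × Λ) × Λ => ad x.1.1 x.1.2 x.2)) :
    Poly (fun a => mat (vs a) (ad a)) := by
  unfold mat
  refine NPC.Poly.map (F := fun a u => (vs a).map fun w => ad a u w) hv ?_
  exact NPC.Poly.map (l := fun p : α × Λ => vs p.1) (F := fun p w => ad p.1 p.2 w)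
    (hv.comp (NPC.Poly.fst NPC.Poly.id)) ha

end

/-! ### Cliques as sequences -/

/-- Adjacency of the numbers `u`, `v` in the graph of the matrix `M`. -/
def adjB (M : List (List Bool)) (u v : ℕ) : Bool :=
  !(decide (u = v)) && (entry M u v || entry M v u)

theorem adjB_symm (M : List (List Bool)) (u v : ℕ) : adjB M u v = adjB M v u := by
  unfold adjB
  rw [Bool.or_comm, show decide (u = v) = decide (v = u) from decide_eq_decide.2 eq_comm]

/-- A clique of size `k`, as a sequence of vertices. -/
def CliqueSeq (M : List (List Bool)) (k : ℕ) (w : ℕ → ℕ) : Prop :=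
  (∀ i < k, w i < M.length) ∧ ∀ i < k, ∀ j < k, i ≠ j → adjB M (w i) (w j) = true

theorem hasClique_iff (x : List (List Bool) × ℕ) : HasClique x ↔ ∃ w, CliqueSeq x.1 x.2 w := by
  obtain ⟨M, k⟩ := x
  constructor
  · rintro ⟨S, hS⟩
    rw [SimpleGraph.isNClique_iff, SimpleGraph.isClique_iff] at hS
    obtain ⟨h1, h2⟩ := hS
    simp only at h2
    let e := S.equivFin.symm
    refine ⟨fun i => if h : i < S.card then (e ⟨i, h⟩).1.1 else 0, ?_, ?_⟩
    · intro i hi
      simp only at hi ⊢
      rw [dif_pos (by omega)]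
      exact (e _).1.2
    · intro i hi j hj hij
      simp only at hi hj ⊢
      rw [dif_pos (by omega), dif_pos (by omega)]
      have hne : (e ⟨i, by omega⟩).1 ≠ (e ⟨j, by omega⟩).1 := by
        intro h
        have := e.injective (Subtype.ext h)
        simp only [Fin.mk.injEq] at this
        exact hij this
      have h3 := h1 (e ⟨i, by omega⟩).2 (e ⟨j, by omega⟩).2 hne
      have h4 : ((e ⟨i, by omega⟩).1 : ℕ) ≠ (e ⟨j, by omega⟩).1 := fun h => hne (Fin.ext h)
      simp only [adjB, Bool.and_eq_true, Bool.not_eq_true', decide_eq_false_iff_not,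
        Bool.or_eq_true]
      exact ⟨h4, h3.2⟩
  · rintro ⟨w, h1, h2⟩
    simp only at h1 h2
    have hinj : ∀ i < k, ∀ j < k, w i = w j → i = j := by
      intro i hi j hj hij
      by_contra hne
      have := h2 i hi j hj hne
      simp [adjB, hij] at this
    let f : Fin k → Fin M.length := fun i => ⟨w i, h1 i i.2⟩
    have hf : Function.Injective f := by
      intro i j hij
      simp only [f, Fin.mk.injEq] at hij
      exact Fin.ext (hinj i i.2 j j.2 hij)
    refine ⟨Finset.univ.map ⟨f, hf⟩, ?_⟩
    rw [SimpleGraph.isNClique_iff, SimpleGraph.isClique_iff]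
    constructor
    · intro a ha b hb hab
      simp only [Finset.coe_map, Function.Embedding.coeFn_mk, Finset.coe_univ, Set.image_univ,
        Set.mem_range] at ha hb
      obtain ⟨i, rfl⟩ := ha
      obtain ⟨j, rfl⟩ := hb
      have hij : (i : ℕ) ≠ j := fun h => hab (congrArg f (Fin.ext h))
      have := h2 i i.2 j j.2 hij
      simp only [adjB, Bool.and_eq_true, Bool.not_eq_true', decide_eq_false_iff_not,
        Bool.or_eq_true] at this
      exact ⟨hab, this.2⟩
    · simp

theorem entry_poly {α : Type} [TEnc α] {M : α → List (List Bool)} {i j : α → ℕ} (hM : Poly M)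
    (hi : Poly i) (hj : Poly j) : Poly (fun a => entry (M a) (i a) (j a)) := by
  unfold entry
  fun_prop

theorem adjB_poly {α : Type} [TEnc α] {M : α → List (List Bool)} {i j : α → ℕ} (hM : Poly M)
    (hi : Poly i) (hj : Poly j) : Poly (fun a => adjB (M a) (i a) (j a)) := by
  unfold adjB
  have h1 := entry_poly hM hi hj
  have h2 := entry_poly hM hj hi
  fun_prop

attribute [fun_prop] entry_poly adjB_poly

end Pool.Agent.Q322
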